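import Pool.Agent.Q211.ZP.Ma

/-!
# A model of ZFA in which IDFBI holds and IWDI fails

The model is a permutation model (the classes `U` of the sets with atoms and `PM` of the
hereditarily symmetric ones are constructed in `Q211/ZP/U` and `Q211/ZP/N`, and it is proved in
`Q211/ZP/M` that permutation models are models of ZFA). The atoms are the natural numbers, cut
dyadically into blocks: the `2 ^ n` blocks of level `n` are infinite, and each of them is the union
of two blocks of level `n + 1`. The group consists of the finitary permutations of the atoms, and a
set is symmetric if it is fixed by all finitary permutations that preserve the blocks of some level
`n` and fix the elements of some finite set `E`.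

A set of atoms with such a support is up to the elements of `E` a union of blocks of level `n`, so
the power set of the set of all atoms is Dedekind-finite.

Let `x` be an infinite set of the model, with support `(n, E)`. If all elements of `x` have this
support, then `x` is well-orderable in the model, and a dyadic system is given by a dyadic
partition. Otherwise some transposition `(a b)` with `a`, `b` in the same block of level `n` and
outside `E` moves some `z` in `x`. Let `(m, E')` be a support of `z`; we may assume that `b` is not
in `E'`. For `c` in the block of `b` of level `m`, outside `E'`, the elements `F c = (a c) z` are in
`x`, and they are pairwise different (if `F c = F d` then `z` is fixed by the transposition `(c d)`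
and by a 3-cycle on `a, c, d`, so by `(a c)`). So `F` is an injection in the model from an infinite
set of atoms to `x`. The images of the blocks of level `m + k` (modulo finite sets, and the rest of
`x` added to the first one) are a dyadic system: since the permutations are finitary, they preserve
the class modulo finite sets of every block, so the whole sequence of these classes is in the
model.
-/

set_option autoImplicit false

namespace Pool.Agent.Results.MP_42b9e0_lc.DyadicNotWeaklyDedekind

open Pool.Agent.Helper672.ZFA Pool.Agent.Q211.ZP

/-- There is a model of ZFA (with standard natural numbers) in which every infinite set is
dyadically filterbase infinite, and some infinite set is not weakly Dedekind-infinite. -/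
theorem result : ∃ (M : Type 1) (_ : L.Structure M) (_ : ZFA M), StdOmega M ∧
    (∀ x : M, IsSet x → ¬ FinIn x → DFBI x) ∧ ∃ x : M, IsSet x ∧ ¬ FinIn x ∧ ¬ WDI x :=
  ⟨Pa, inferInstance, inferInstance, stdOmega, fun x _ hx => dfbi_all x hx, exists_atoms⟩

end Pool.Agent.Results.MP_42b9e0_lc.DyadicNotWeaklyDedekind
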